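import Pool.Agent.W322.HB.Tools

/-!
Part HB-N: all branches are labelled by patterns.
-/

set_option autoImplicit false

namespace Pool.Agent.W335.HB

open Finset Pool.Agent.H115R3.DT Pool.Agent.W322.HB

theorem one_branch {V : Type} [DecidableEq V] {R : RT V} {m C n κ Q u T S g₁ g₂ g₃ G : ℕ}
    {p : ℕ → ℕ} {W : Finset V} {f : V → ℕ} {e : ℕ → V} {P : ℕ → ℕ}
    (hN : Pool.Agent.W322.HB.Num C κ Q u T S g₁ g₂ g₃ G) (hS : Shape C n p) (hSt : St R m W f)
    (hnb : nb G R W f ≤ u) (hB : Br R n p e) (hdis : Disjoint (vs n e) W)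
    (hPat : Pat p κ 0 (range n) P) (hm : κ * T ≤ m) :
    ∃ (f' : V → ℕ) (M : Finset ℕ), (∀ x ∈ W, f' x = f x) ∧ St R m (W ∪ vs n e) f' ∧
      M.card ≤ n ∧ Ls R (W ∪ vs n e) f' = Ls R W f ∪ M ∧
      Ds R (W ∪ vs n e) f' = Ds R W f ∪ M := by
  classical
  have hn0 : 0 < n := by have := hS.two; omega
  have hG1 : 1 < G := by
    rw [hN.hG]
    have h1 := hN.p1.one_lt
    have h2 := hN.p2.one_lt
    have h3 := hN.p3.one_lt
    calc 1 < g₁ := h1
      _ ≤ g₁ * g₂ := Nat.le_mul_of_pos_right _ (by omega)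
      _ ≤ g₁ * g₂ * g₃ := Nat.le_mul_of_pos_right _ (by omega)
  have hPpos : ∀ i < n, 1 ≤ P i := fun i hi => hPat.pos i (mem_range.2 hi)
  have hPle : ∀ i < n, P i ≤ κ := fun i hi => hPat.le i (mem_range.2 hi)
  have hPinj : ∀ i < n, ∀ j < n, P i = P j → i = j := fun i hi j hj h =>
    hPat.inj i (mem_range.2 hi) j (mem_range.2 hj) h
  -- the fresh parameter
  obtain ⟨j, hj, hfr⟩ := taskFresh G u G (Us R W f) ((range n).image (fun x => (P x, 0))) hnb
    (by
      intro q hp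
      obtain ⟨x, hx, rfl⟩ := Finset.mem_image.1 hp
      exact hPat.pos x hx)
    (by omega)
    (by
      intro q hp i hc
      have hp2 : q.2 = 0 := by
        obtain ⟨x, hx, rfl⟩ := Finset.mem_image.1 hp
        rfl
      rw [hp2, Nat.add_zero] at hc
      have hd : G ∣ q.1 * (G + G * i) := ⟨q.1 * (1 + i), by ring⟩
      have := Nat.Coprime.eq_one_of_dvd hc.symm hd
      omega)
  obtain ⟨t, ht⟩ : ∃ t, t = G + G * j := ⟨_, rfl⟩
  rw [← ht] at hfr
  have hcard : ((range n).image (fun x => ((P x, 0) : ℕ × ℕ))).card ≤ n := by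
    refine Finset.card_image_le.trans ?_
    rw [card_range]
  have ht0 : 0 < t := by
    rw [ht]; omega
  have htT : t ≤ T := by
    refine le_trans ?_ hN.hT
    have h1 : j ≤ n * u := hj.trans (Nat.mul_le_mul_right u hcard)
    have h2 : n * u ≤ C * u := Nat.mul_le_mul_right u hS.le
    have h3 : G ≤ G * κ := Nat.le_mul_of_pos_right G hN.hκ
    have h4 : 1 ≤ (C + 2) ^ 2 := Nat.one_le_pow _ _ (by omega)
    have h5 : j + 1 ≤ 2 * C * u + (C + 2) ^ 2 := by
      have : 2 * C * u = C * u + C * u := by ring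
      omega
    rw [ht]
    calc G + G * j = G * (j + 1) := by ring
      _ ≤ G * κ * (2 * C * u + (C + 2) ^ 2) := Nat.mul_le_mul h3 h5
  have fS : ∀ i < n, t * P i ∉ Us R W f := by
    intro x hx
    have := hfr (P x, 0) (Finset.mem_image.2 ⟨x, mem_range.2 hx, rfl⟩)
    simpa [Nat.mul_comm] using this
  have hSW : ∀ i < n, e i ∉ W := fun x hx h =>
    (Finset.disjoint_left.1 hdis) (mem_vs.2 ⟨x, hx, rfl⟩) h
  -- the new labelling
  obtain ⟨f', hf'⟩ : ∃ f' : V → ℕ, f' = fun x =>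
    if h : ∃ i, i < n ∧ e i = x then t * P h.choose else f x := ⟨_, rfl⟩
  have eS : ∀ i < n, f' (e i) = t * P i := by
    intro i hi
    have h : ∃ i', i' < n ∧ e i' = e i := ⟨i, hi, rfl⟩
    rw [hf']
    simp only [dif_pos h]
    rw [hB.inj _ h.choose_spec.1 i hi h.choose_spec.2]
  have eW : ∀ x ∈ W, f' x = f x := by
    intro x hx
    have h1 : ¬ ∃ i, i < n ∧ e i = x := by
      rintro ⟨i, hi, rfl⟩
      exact hSW i hi hx
    rw [hf']
    simp only [dif_neg h1]
  -- differences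
  have d0 : R.dif f' (e 0) = t * P 0 := by
    unfold RT.dif
    rw [hB.top, eS 0 hn0, eW _ hSt.root, hSt.f0]
    rw [Int.natCast_zero, sub_zero, Int.natAbs_natCast]
  have dS : ∀ i, 0 < i → i < n → R.dif f' (e i) =
      t * Int.natAbs ((P i : ℤ) - (P (p i) : ℤ)) := by
    intro i hi0 hi
    unfold RT.dif
    rw [hB.par i hi0 hi, eS i hi, eS (p i) ((hS.lt i hi0 hi).trans hi)]
    have : ((t * P i : ℕ) : ℤ) - ((t * P (p i) : ℕ) : ℤ) =
        (t : ℤ) * ((P i : ℤ) - (P (p i) : ℤ)) := by push_cast; ring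
    rw [this, Int.natAbs_mul, Int.natAbs_natCast]
  have qS : ∀ i, 0 < i → i < n → ∃ y, 0 < y ∧ y < n ∧
      Int.natAbs ((P i : ℤ) - (P (p i) : ℤ)) = P y := by
    intro i hi0 hi
    have h1 : Int.natAbs ((P i : ℤ) - (P (p i) : ℤ)) ∈
        ((range n).erase 0).image (fun x => Int.natAbs ((P x : ℤ) - (P (p x) : ℤ))) :=
      Finset.mem_image.2 ⟨i, Finset.mem_erase.2 ⟨by omega, mem_range.2 hi⟩, rfl⟩
    rw [hPat.im] at h1
    obtain ⟨y, hy, hy2⟩ := Finset.mem_image.1 h1
    obtain ⟨hy3, hy4⟩ := Finset.mem_erase.1 hy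
    exact ⟨y, Nat.pos_of_ne_zero hy3, mem_range.1 hy4, hy2.symm⟩
  obtain ⟨M, hM⟩ : ∃ M : Finset ℕ, M = (range n).image fun x => t * P x := ⟨_, rfl⟩
  have hMl : (vs n e).image f' = M := by
    rw [hM]
    ext y
    simp only [Finset.mem_image, mem_vs, mem_range]
    constructor
    · rintro ⟨x, ⟨i, hi, rfl⟩, rfl⟩
      exact ⟨i, hi, (eS i hi).symm⟩
    · rintro ⟨i, hi, rfl⟩
      exact ⟨e i, ⟨i, hi, rfl⟩, eS i hi⟩
  have hMd : (vs n e).image (R.dif f') = M := by
    rw [hM]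
    ext z
    simp only [Finset.mem_image, mem_vs, mem_range]
    constructor
    · rintro ⟨x, ⟨i, hi, rfl⟩, rfl⟩
      rcases Nat.eq_zero_or_pos i with h0 | h0
      · subst h0
        exact ⟨0, hi, d0.symm⟩
      · obtain ⟨y, hy0, hy, he⟩ := qS i h0 hi
        exact ⟨y, hy, by rw [dS i h0 hi, he]⟩
    · rintro ⟨y, hy, rfl⟩
      rcases Nat.eq_zero_or_pos y with h0 | h0
      · subst h0
        exact ⟨e 0, ⟨0, hy, rfl⟩, d0⟩
      · have h1 : P y ∈ ((range n).erase 0).image P :=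
          Finset.mem_image.2 ⟨y, Finset.mem_erase.2 ⟨by omega, mem_range.2 hy⟩, rfl⟩
        rw [← hPat.im] at h1
        obtain ⟨x, hx, hx2⟩ := Finset.mem_image.1 h1
        obtain ⟨hx3, hx4⟩ := Finset.mem_erase.1 hx
        have hx5 := mem_range.1 hx4
        refine ⟨e x, ⟨x, hx5, rfl⟩, ?_⟩
        rw [dS x (Nat.pos_of_ne_zero hx3) hx5]
        exact congrArg (fun z => t * z) hx2
  have hMU : Disjoint M (Us R W f) := by
    rw [Finset.disjoint_left, hM]
    intro z hz
    obtain ⟨x, hx, rfl⟩ := Finset.mem_image.1 hz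
    exact fS x (mem_range.1 hx)
  have hE' := taskExt V R m W f (vs n e) f' hSt hdis eW
    (by
      intro x hx
      obtain ⟨i, hi, rfl⟩ := mem_vs.1 hx
      rcases Nat.eq_zero_or_pos i with h0 | h0
      · subst h0
        rw [hB.top]
        exact Finset.mem_union_left _ hSt.root
      · rw [hB.par i h0 hi]
        exact Finset.mem_union_right _ (mem_vs.2 ⟨p i, (hS.lt i h0 hi).trans hi, rfl⟩))
    (by
      intro x hx y hy hxy
      obtain ⟨i, hi, rfl⟩ := mem_vs.1 hx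
      obtain ⟨l, hl, rfl⟩ := mem_vs.1 hy
      rw [eS i hi, eS l hl] at hxy
      rw [hPinj i hi l hl (Nat.eq_of_mul_eq_mul_left ht0 hxy)])
    (by
      have key : ∀ i, 0 < i → i < n → R.dif f' (e i) ≠ R.dif f' (e 0) := by
        intro i hi0 hi h
        obtain ⟨y, hy0, hy, he⟩ := qS i hi0 hi
        rw [dS i hi0 hi, d0, he] at h
        have := hPinj y hy 0 hn0 (Nat.eq_of_mul_eq_mul_left ht0 h)
        omega
      intro x hx y hy hxy
      obtain ⟨i, hi, rfl⟩ := mem_vs.1 hx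
      obtain ⟨l, hl, rfl⟩ := mem_vs.1 hy
      rcases Nat.eq_zero_or_pos i with h0 | h0 <;> rcases Nat.eq_zero_or_pos l with h0' | h0'
      · rw [h0, h0']
      · subst h0
        exact absurd hxy.symm (key l h0' hl)
      · subst h0'
        exact absurd hxy (key i h0 hi)
      · rw [dS i h0 hi, dS l h0' hl] at hxy
        rw [hPat.dinj i (mem_range.2 hi) l (mem_range.2 hl) (by omega) (by omega)
          (Nat.eq_of_mul_eq_mul_left ht0 hxy)])
    (by
      intro x hx
      obtain ⟨i, hi, rfl⟩ := mem_vs.1 hx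
      rw [eS i hi]
      refine ⟨?_, Nat.mul_pos ht0 (hPpos i hi), fun hh => fS i hi ?_⟩
      · calc t * P i ≤ T * κ := Nat.mul_le_mul htT (hPle i hi)
          _ = κ * T := Nat.mul_comm _ _
          _ ≤ m := hm
      · exact Finset.mem_union_left _ hh)
    (by
      intro x hx hh
      have h1 : R.dif f' x ∈ M := by
        rw [← hMd]; exact Finset.mem_image_of_mem _ hx
      exact (Finset.disjoint_left.1 hMU) h1 (Finset.mem_union_right _ hh))
  refine ⟨f', M, eW, hE'.1, ?_, ?_, ?_⟩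
  · rw [hM]
    refine Finset.card_image_le.trans ?_
    rw [card_range]
  · rw [hE'.2.1, hMl]
  · rw [hE'.2.2, hMd]

theorem taskN : Pool.Agent.W322.HB.TaskN := by
  intro V _ R m C n κ Q u T S g₁ g₂ g₃ G p W f rs e P hN hS hI hPat hm hLD
  obtain ⟨k, hk⟩ : ∃ k, rs.card = k := ⟨_, rfl⟩
  induction k generalizing W f rs with
  | zero =>
    rw [Finset.card_eq_zero] at hk
    subst hk
    refine ⟨f, ?_, ?_⟩
    · rw [Wn_self]
      exact hI.st
    · rw [Wn_self]
      exact hLD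
  | succ k ih =>
    obtain ⟨r, hr⟩ : rs.Nonempty := Finset.card_pos.1 (by omega)
    obtain ⟨f₁, M, eW, hSt, hM, hL, hD⟩ := one_branch hN hS hI.st
      (le_trans (Nat.le_add_right _ _) hI.num) (hI.fam.br r hr) (hI.fam.disW r hr) hPat hm
    have hnb : nb G R (W ∪ vs n (e r)) f₁ ≤ nb G R W f + 2 * C := by
      refine (nb_le (M := M) (W := W) (f := f) ?_).trans ?_
      · unfold Us
        rw [hL, hD]
        intro x hx
        simp only [mem_union] at hx ⊢
        tauto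
      · have := hS.le
        omega
    have hI' := hI.step hr hSt hnb
    obtain ⟨f', h1, h2⟩ := ih (W ∪ vs n (e r)) f₁ (rs.erase r) hI' (by rw [hL, hD, hLD])
      (by rw [Finset.card_erase_of_mem hr]; omega)
    have h3 : Wn n (W ∪ vs n (e r)) (rs.erase r) ∅ e = Wn n W rs ∅ e := by
      rw [← Wn_erase hr, Wn_trans (Finset.erase_subset r rs) (Finset.empty_subset _)]
    rw [h3] at h1 h2
    exact ⟨f', h1, h2⟩

end Pool.Agent.W335.HB
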